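import Mathlib
import Pool.Agent.H892.ZL.Stm2

set_option autoImplicit false

/-!
Smoothness of the complex at a decomposable vector.
-/

namespace Pool.Agent.H52.ZL

open Pool.Agent.H892.ZL
open MvPolynomial Matrix

theorem grad_Gp (p : Fin 6 → ℂ) : grad Gp p = ![p 5, -p 4, p 3, p 2, -p 1, p 0] := by
  funext j
  fin_cases j <;> simp [grad, Gp, pderiv_X]

theorem sum_grad_Gp (p u : Fin 6 → ℂ) : ∑ I, grad Gp p I * u I = Bf p u := by
  rw [grad_Gp, Fin.sum_univ_six]
  simp [Bf]
  ring

theorem Bf_tan (x y ξ η : Fin 4 → ℂ) : Bf (plu x y) (plu ξ y + plu x η) = 0 := by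
  simp [Bf, plu]
  ring

theorem plu_eq {x y : Fin 4 → ℂ} (h : plu x y = 0) (i j : Fin 4) : x i * y j = x j * y i := by
  have h0 : x 0 * y 1 - x 1 * y 0 = 0 := congrFun h 0
  have h1 : x 0 * y 2 - x 2 * y 0 = 0 := congrFun h 1
  have h2 : x 0 * y 3 - x 3 * y 0 = 0 := congrFun h 2
  have h3 : x 1 * y 2 - x 2 * y 1 = 0 := congrFun h 3
  have h4 : x 1 * y 3 - x 3 * y 1 = 0 := congrFun h 4
  have h5 : x 2 * y 3 - x 3 * y 2 = 0 := congrFun h 5
  fin_cases i <;> fin_cases j <;>
    first
    | rfl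
    | exact sub_eq_zero.1 h0
    | exact sub_eq_zero.1 h1
    | exact sub_eq_zero.1 h2
    | exact sub_eq_zero.1 h3
    | exact sub_eq_zero.1 h4
    | exact sub_eq_zero.1 h5
    | exact (sub_eq_zero.1 h0).symm
    | exact (sub_eq_zero.1 h1).symm
    | exact (sub_eq_zero.1 h2).symm
    | exact (sub_eq_zero.1 h3).symm
    | exact (sub_eq_zero.1 h4).symm
    | exact (sub_eq_zero.1 h5).symm

theorem plu_ne {x y : Fin 4 → ℂ} (h : LinearIndependent ℂ ![x, y]) : plu x y ≠ 0 := by
  intro h0
  rw [LinearIndependent.pair_iff] at h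
  have h1 : x = 0 := by
    funext i
    have h2 := h (y i) (-x i) (by
      funext j
      simp only [Pi.add_apply, Pi.smul_apply, smul_eq_mul, Pi.zero_apply]
      have := plu_eq h0 i j
      linear_combination -this)
    simpa using h2.2
  have h2 := h 1 0 (by simp [h1])
  exact one_ne_zero h2.1

theorem grad_ne {x y : Fin 4 → ℂ} (h : LinearIndependent ℂ ![x, y]) :
    ∃ I, grad Gp (plu x y) I ≠ 0 := by
  by_contra hc
  push Not at hc
  apply plu_ne h
  rw [grad_Gp] at hc
  have h0 : plu x y 5 = 0 := hc 0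
  have h1 : -plu x y 4 = 0 := hc 1
  have h2 : plu x y 3 = 0 := hc 2
  have h3 : plu x y 2 = 0 := hc 3
  have h4 : -plu x y 1 = 0 := hc 4
  have h5 : plu x y 0 = 0 := hc 5
  funext I
  fin_cases I
  · exact h5
  · exact neg_eq_zero.1 h4
  · exact h3
  · exact h2
  · exact neg_eq_zero.1 h1
  · exact h0

theorem t_SMT (h1 : S_D6) (h2 : S_TAN) (h3 : S_NETD) : S_SMT := by
  intro Q hQ x y hxy
  obtain ⟨I0, hI0⟩ := grad_ne hxy
  have hD := h3 Q hQ
  unfold SmoothAt
  rw [h1 ℂ (YY (NetK Q) (plu x y))]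
  have hY0 : ∀ j, YY (NetK Q) (plu x y) 0 j = grad Gp (plu x y) j := fun _ => rfl
  have hY1 : ∀ j, YY (NetK Q) (plu x y) 1 j = grad (NetK Q) (plu x y) j := fun _ => rfl
  simp only [hY0, hY1]
  constructor
  · intro hns ξ η
    push Not at hns
    obtain ⟨a, b, hab, hne⟩ := hns
    have hb : b ≠ 0 := by
      intro hb
      have ha : a = 0 := by
        have := hab I0
        rw [hb, zero_mul, add_zero] at this
        exact (mul_eq_zero.1 this).resolve_right hI0
      exact hne ha hb
    rw [← hD.2 x y ξ η]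
    have e1 : ∑ I, (a * grad Gp (plu x y) I + b * grad (NetK Q) (plu x y) I) *
        (plu ξ y + plu x η) I = 0 := Finset.sum_eq_zero fun I _ => by rw [hab I, zero_mul]
    have e2 : ∑ I, (a * grad Gp (plu x y) I + b * grad (NetK Q) (plu x y) I) *
        (plu ξ y + plu x η) I = a * ∑ I, grad Gp (plu x y) I * (plu ξ y + plu x η) I +
          b * ∑ I, grad (NetK Q) (plu x y) I * (plu ξ y + plu x η) I := by
      rw [Finset.mul_sum, Finset.mul_sum, ← Finset.sum_add_distrib]
      exact Finset.sum_congr rfl fun I _ => by ring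
    rw [e2, sum_grad_Gp, Bf_tan, mul_zero, zero_add] at e1
    exact (mul_eq_zero.1 e1).resolve_left hb
  · intro h
    push Not
    refine ⟨-grad (NetK Q) (plu x y) I0, grad Gp (plu x y) I0, fun J => ?_, fun _ => hI0⟩
    set g := grad Gp (plu x y) with hg
    set k := grad (NetK Q) (plu x y) with hk
    set u : Fin 6 → ℂ := fun I => g I0 * (if I = J then 1 else 0) - g J * (if I = I0 then 1 else 0)
      with hu
    have hsum : ∀ f : Fin 6 → ℂ, ∑ I, f I * u I = g I0 * f J - g J * f I0 := by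
      intro f
      have e : ∀ I, f I * u I = (if I = J then g I0 * f I else 0) -
          (if I = I0 then g J * f I else 0) := by
        intro I
        simp only [hu]
        split_ifs <;> ring
      simp only [e, Finset.sum_sub_distrib, Finset.sum_ite_eq', Finset.mem_univ, if_true]
    have hB : Bf (plu x y) u = 0 := by
      rw [← sum_grad_Gp, ← hg, hsum]
      ring
    obtain ⟨ξ, η, hξ⟩ := h2 ℂ x y hxy u hB
    have e3 := hD.2 x y ξ η
    rw [h ξ η, ← hξ, ← hk, hsum] at e3
    linear_combination e3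

end Pool.Agent.H52.ZL
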